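import Mathlib

set_option autoImplicit false

namespace Pool.Agent.Results.MP_184855_gt.CompactLOTS

open Set

/-- A space has the Blumberg property if every real function on it, continuous or not, has a
continuous restriction to some dense subset (with the subspace topology). -/
def BlumbergProperty (X : Type) [TopologicalSpace X] : Prop :=
  ∀ f : X → ℝ, ∃ D : Set X, Dense D ∧ Continuous (fun x : D => f x)

section WellOrder

/-- Countable sets are strictly bounded above. -/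
def Bdd (Ω : Type) [LinearOrder Ω] : Prop :=
  ∀ A : Set Ω, A.Countable → ∃ b, ∀ a ∈ A, a < b

variable {Ω : Type} [LinearOrder Ω]

/-- The set contains its limit points from the left. -/
def Clos (C : Set Ω) : Prop :=
  ∀ x, (∃ y, y < x) → (∀ y, y < x → ∃ z ∈ C, y < z ∧ z < x) → x ∈ C

/-- The set has arbitrarily large members. -/
def Unb (C : Set Ω) : Prop := ∀ b, ∃ c ∈ C, b < c

variable [WellFoundedLT Ω]

lemma sup_iter (hb : Bdd Ω) (h : Ω → Ω) (b : Ω) :
    ∃ δ, (∀ k : ℕ, h^[k] b < δ) ∧ ∀ y, y < δ → ∃ k : ℕ, y ≤ h^[k] b := by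
  obtain ⟨u, hu⟩ := hb (Set.range fun k : ℕ => h^[k] b) (Set.countable_range _)
  let P : Set Ω := {δ | ∀ k : ℕ, h^[k] b < δ}
  have hP : P.Nonempty := ⟨u, fun k => hu _ ⟨k, rfl⟩⟩
  refine ⟨wellFounded_lt.min P hP, wellFounded_lt.min_mem P hP, fun y hy => ?_⟩
  by_contra hcon
  push Not at hcon
  exact wellFounded_lt.not_lt_min P (x := y) hcon hy

lemma inter_clubs (hb : Bdd Ω) (C : ℕ → Set Ω) (hC : ∀ n, Clos (C n)) (hU : ∀ n, Unb (C n))
    (b : Ω) : ∃ δ, b < δ ∧ ∀ n, δ ∈ C n := by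
  choose nx hnx1 hnx2 using hU
  choose h hh using fun x => hb (Set.range fun n => nx n x) (Set.countable_range _)
  have hh' : ∀ x n, nx n x < h x := fun x n => hh x _ ⟨n, rfl⟩
  obtain ⟨δ, h1, h2⟩ := sup_iter hb h b
  refine ⟨δ, h1 0, fun n => hC n δ ⟨b, h1 0⟩ fun y hy => ?_⟩
  obtain ⟨k, hk⟩ := h2 y hy
  refine ⟨nx n (h^[k] b), hnx1 _ _, lt_of_le_of_lt hk (hnx2 _ _), ?_⟩
  have h3 := h1 (k + 1)
  rw [Function.iterate_succ_apply'] at h3
  exact (hh' _ n).trans h3

/-- There is a set that meets every club and contains no club. -/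
lemma exists_bistat (hb : Bdd Ω) (r : Ω → ℕ → Bool) (hr : Function.Injective r) :
    ∃ S : Set Ω, (∀ C : Set Ω, Clos C → Unb C → (C ∩ S).Nonempty) ∧
      (∀ C : Set Ω, Clos C → Unb C → ¬ C ⊆ S) := by
  by_contra hcon
  push Not at hcon
  have key : ∀ n, ∃ C : Set Ω, Clos C ∧ Unb C ∧ ∃ v : Bool, ∀ a ∈ C, r a n = v := by
    intro n
    by_cases h1 : ∀ C : Set Ω, Clos C → Unb C → (C ∩ {a | r a n = true}).Nonempty
    · obtain ⟨C, h2, h3, h4⟩ := hcon {a | r a n = true} h1
      exact ⟨C, h2, h3, true, fun a ha => h4 ha⟩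
    · push Not at h1
      obtain ⟨C, h2, h3, h4⟩ := h1
      refine ⟨C, h2, h3, false, fun a ha => ?_⟩
      rw [← Bool.not_eq_true]
      intro h5
      have : a ∈ C ∩ {a | r a n = true} := ⟨ha, h5⟩
      rw [h4] at this
      exact this
  choose C h1 h2 v h3 using key
  obtain ⟨b, -⟩ := hb ∅ countable_empty
  obtain ⟨δ, hδ1, hδ2⟩ := inter_clubs hb C h1 h2 b
  obtain ⟨ε, hε1, hε2⟩ := inter_clubs hb C h1 h2 δ
  have h4 : r δ = r ε := funext fun n => (h3 n δ (hδ2 n)).trans (h3 n ε (hε2 n)).symm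
  exact hε1.ne (hr h4)

lemma list_bound {x : Ω} (hx : ∃ y, y < x) (l : List Ω) (hl : ∀ β ∈ l, β < x) :
    ∃ y, y < x ∧ ∀ β ∈ l, β ≤ y := by
  induction l with
  | nil =>
    obtain ⟨y, hy⟩ := hx
    exact ⟨y, hy, by simp⟩
  | cons c l ih =>
    obtain ⟨y, hy, hy'⟩ := ih (fun β hβ => hl β (List.mem_cons_of_mem _ hβ))
    refine ⟨max y c, max_lt hy (hl c List.mem_cons_self), fun β hβ => ?_⟩
    rcases List.mem_cons.mp hβ with rfl | hβ
    · exact le_max_right _ _
    · exact (hy' β hβ).trans (le_max_left _ _)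

/-- The points closed under a finitary function form a club. -/
lemma club_closure (hb : Bdd Ω) (hc : ∀ a : Ω, (Iic a).Countable) (F : List Ω → Ω) :
    Clos {δ : Ω | ∀ l : List Ω, (∀ β ∈ l, β < δ) → F l < δ} ∧
    Unb {δ : Ω | ∀ l : List Ω, (∀ β ∈ l, β < δ) → F l < δ} := by
  constructor
  · intro x hx hlim l hl
    obtain ⟨y, hy, hy'⟩ := list_bound hx l hl
    obtain ⟨z, hz, hyz, hzx⟩ := hlim y hy
    exact (hz l (fun β hβ => (hy' β hβ).trans_lt hyz)).trans hzx
  · intro b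
    have hcount : ∀ x : Ω, Countable (Iic x) := fun x => (hc x).to_subtype
    have hex : ∀ x : Ω, ∃ u, ∀ l : List (Iic x), F (l.map Subtype.val) < u := by
      intro x
      have := hcount x
      obtain ⟨u, hu⟩ := hb (Set.range fun l : List (Iic x) => F (l.map Subtype.val))
        (Set.countable_range _)
      exact ⟨u, fun l => hu _ ⟨l, rfl⟩⟩
    choose h hh using hex
    obtain ⟨δ, h1, h2⟩ := sup_iter hb h b
    refine ⟨δ, fun l hl => ?_, h1 0⟩
    obtain ⟨y, hy, hy'⟩ := list_bound ⟨b, h1 0⟩ l hl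
    obtain ⟨k, hk⟩ := h2 y hy
    have h3 := h1 (k + 1)
    rw [Function.iterate_succ_apply'] at h3
    refine lt_trans ?_ h3
    have h4 : ∀ β ∈ l, β ∈ Iic (h^[k] b) := fun β hβ => (hy' β hβ).trans hk
    have h5 := hh (h^[k] b) (l.attach.map fun β => ⟨β.1, h4 β.1 β.2⟩)
    rw [List.map_map] at h5
    have h6 : (l.attach.map (Subtype.val ∘ fun β : {β // β ∈ l} =>
        (⟨β.1, h4 β.1 β.2⟩ : Iic (h^[k] b)))) = l := by
      have : (Subtype.val ∘ fun β : {β // β ∈ l} =>
        (⟨β.1, h4 β.1 β.2⟩ : Iic (h^[k] b))) = Subtype.val := rfl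
      rw [this, List.attach_map_subtype_val]
    rwa [h6] at h5

end WellOrder

section Space

variable {Ω : Type} [LinearOrder Ω] [WellFoundedLT Ω]

/-- The closed bounded subsets of `S`, coded by characteristic functions; they are compared
lexicographically. -/
def L (S : Set Ω) : Type :=
  {t : Lex (Ω → Bool) // (∀ a, t a = true → a ∈ S) ∧ (∃ b, ∀ a, t a = true → a < b) ∧
    Clos {a | t a = true}}

noncomputable instance (S : Set Ω) : LinearOrder (L S) :=
  inferInstanceAs (LinearOrder {t : Lex (Ω → Bool) // (∀ a, t a = true → a ∈ S) ∧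
    (∃ b, ∀ a, t a = true → a < b) ∧ Clos {a | t a = true}})

/-- The compact linearly ordered space. -/
abbrev Y (S : Set Ω) : Type := DedekindCut (L S)

variable {S : Set Ω}

lemma lt_iff (s t : L S) :
    s < t ↔ ∃ a, (∀ b, b < a → s.1 b = t.1 b) ∧ s.1 a = false ∧ t.1 a = true := by
  have h : s < t ↔ ∃ a, (∀ b, b < a → s.1 b = t.1 b) ∧ s.1 a < t.1 a := Iff.rfl
  rw [h]
  simp only [Bool.lt_iff]

/-- Sets that agree with `t` up to `a`. -/
def cyl (t : L S) (a : Ω) : Set (L S) := {s | ∀ b, b ≤ a → s.1 b = t.1 b}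

/-- The open set of the space belonging to a cylinder. -/
def O (t : L S) (a : Ω) : Set (Y S) :=
  {y | ∃ s ∈ cyl t a, ∃ s' ∈ cyl t a, DedekindCut.principal s < y ∧ y < DedekindCut.principal s'}

lemma cyl_trans {t t' : L S} {a a' : Ω} (h : a ≤ a') (ht : t' ∈ cyl t a) :
    cyl t' a' ⊆ cyl t a :=
  fun _ hs b hb => (hs b (hb.trans h)).trans (ht b hb)

lemma O_mono {t t' : L S} {a a' : Ω} (h : a ≤ a') (ht : t' ∈ cyl t a) : O t' a' ⊆ O t a := by
  rintro y ⟨s, hs, s', hs', h1, h2⟩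
  exact ⟨s, cyl_trans h ht hs, s', cyl_trans h ht hs', h1, h2⟩

/-- Two cylinders with incompatible stems are separated in the order. -/
lemma cyl_sep {t t' s s' : L S} {a a' x : Ω} (hx : x ≤ a) (hx' : x ≤ a')
    (heq : ∀ z, z < x → t.1 z = t'.1 z) (h0 : t.1 x = false) (h1 : t'.1 x = true)
    (hs : s ∈ cyl t a) (hs' : s' ∈ cyl t' a') : s < s' := by
  rw [lt_iff]
  refine ⟨x, fun b hb => ?_, ?_, ?_⟩
  · rw [hs b (hb.le.trans hx), hs' b (hb.le.trans hx')]
    exact heq b hb
  · rw [hs x hx, h0]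
  · rw [hs' x hx', h1]

lemma coherence {y : Y S} {t t' : L S} {a a' : Ω} (h : y ∈ O t a) (h' : y ∈ O t' a') :
    ∀ x, x ≤ a → x ≤ a' → t.1 x = t'.1 x := by
  by_contra hcon
  push Not at hcon
  obtain ⟨x0, hx0, hx0', hne0⟩ := hcon
  let P : Set Ω := {x | t.1 x ≠ t'.1 x}
  have hP : P.Nonempty := ⟨x0, hne0⟩
  obtain ⟨x, hxdef⟩ : ∃ x, x = wellFounded_lt.min P hP := ⟨_, rfl⟩
  have hx1 : t.1 x ≠ t'.1 x := by rw [hxdef]; exact wellFounded_lt.min_mem P hP
  have hx2 : ∀ z, z < x → t.1 z = t'.1 z := by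
    intro z hz
    by_contra hz'
    rw [hxdef] at hz
    exact wellFounded_lt.not_lt_min P (x := z) hz' hz
  have hx3 : x ≤ x0 := by
    by_contra h3
    exact hne0 (hx2 x0 (not_le.mp h3))
  have hxa := hx3.trans hx0
  have hxa' := hx3.trans hx0'
  obtain ⟨s1, hs1, s2, hs2, h1, h2⟩ := h
  obtain ⟨s1', hs1', s2', hs2', h1', h2'⟩ := h'
  rcases Bool.eq_false_or_eq_true (t.1 x) with ht | ht
  · have ht' : t'.1 x = false := by
      rw [← Bool.not_eq_true]; intro h5; exact hx1 (ht.trans h5.symm)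
    have h3 := cyl_sep hxa' hxa (fun z hz => (hx2 z hz).symm) ht' ht hs2' hs1
    have h4 := h1.trans h2'
    rw [DedekindCut.principal_lt_principal] at h4
    exact lt_asymm h3 h4
  · have ht' : t'.1 x = true := by
      rw [← Bool.not_eq_false]; intro h5; exact hx1 (ht.trans h5.symm)
    have h3 := cyl_sep hxa hxa' hx2 ht ht' hs2 hs1'
    have h4 := h1'.trans h2
    rw [DedekindCut.principal_lt_principal] at h4
    exact lt_asymm h3 h4

lemma le_of_bounded {c s : L S} {a b0 : Ω} (hb0 : ∀ x, c.1 x = true → x ≤ b0) (hab : b0 ≤ a)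
    (hs : s ∈ cyl c a) : c ≤ s := by
  by_contra hlt
  rw [not_le, lt_iff] at hlt
  obtain ⟨x, -, h1, h2⟩ := hlt
  have h3 := hs x ((hb0 x h2).trans hab)
  rw [h1, h2] at h3
  exact Bool.false_ne_true h3

/-- Every point leaves the cylinders at some level. -/
lemma level (hb : Bdd Ω) (hS : ∀ C : Set Ω, Clos C → Unb C → ¬ C ⊆ S) (y : Y S) :
    ∃ a : Ω, ∀ b, a ≤ b → ∀ t, y ∉ O t b := by
  by_contra hcon
  push Not at hcon
  choose b hab t ht using hcon
  have hco : ∀ a a' x, x ≤ b a → x ≤ b a' → (t a).1 x = (t a').1 x :=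
    fun a a' x => coherence (ht a) (ht a') x
  let c : Ω → Bool := fun x => (t x).1 x
  have hc : ∀ a x, x ≤ b a → (t a).1 x = c x := fun a x hx => hco a x x hx (hab x)
  have hcS : ∀ x, c x = true → x ∈ S := fun x hx => (t x).2.1 x hx
  have hcC : Clos {x | c x = true} := by
    intro x hx hlim
    show (t x).1 x = true
    refine (t x).2.2.2 x hx fun y hy => ?_
    obtain ⟨z, hz, h1, h2⟩ := hlim y hy
    refine ⟨z, ?_, h1, h2⟩
    show (t x).1 z = true
    rw [hc x z (h2.le.trans (hab x))]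
    exact hz
  by_cases hU : Unb {x | c x = true}
  · exact hS _ hcC hU hcS
  · unfold Unb at hU
    push Not at hU
    obtain ⟨b0, hb0⟩ := hU
    obtain ⟨b1, hb1⟩ := hb {b0} (Set.countable_singleton _)
    have hb01 : b0 < b1 := hb1 b0 rfl
    let cc : L S := ⟨c, hcS, ⟨b1, fun a ha => (hb0 a ha).trans_lt hb01⟩, hcC⟩
    have hcc : ∀ a, t a ∈ cyl cc (b a) := fun a x hx => hc a x hx
    have hy : ∀ a, y ∈ O cc (b a) := fun a => O_mono le_rfl (hcc a) (ht a)
    have h1 : DedekindCut.principal cc < y := by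
      obtain ⟨s, hs, s', hs', h1, h2⟩ := hy b0
      have h3 : cc ≤ s := le_of_bounded hb0 (hab b0) hs
      exact (DedekindCut.principal_le_principal.mpr h3).trans_lt h1
    rw [DedekindCut.lt_iff_exists] at h1
    obtain ⟨d, hd1, hd2⟩ := h1
    rw [DedekindCut.principal_lt_principal, lt_iff] at hd1
    obtain ⟨x, hx1, hx2, hx3⟩ := hd1
    obtain ⟨s, hs, s', hs', h1, h2⟩ := hy x
    have h4 := hd2.trans_lt h2
    rw [DedekindCut.principal_lt_principal] at h4
    have h5 : s' < d := by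
      rw [lt_iff]
      refine ⟨x, fun z hz => ?_, ?_, hx3⟩
      · rw [hs' z (hz.le.trans (hab x))]
        exact hx1 z hz
      · rw [hs' x (hab x)]
        exact hx2
    exact lt_asymm h4 h5

lemma cyl_convex {t s1 s2 c : L S} {a : Ω} (h1 : s1 ∈ cyl t a) (h2 : s2 ∈ cyl t a)
    (h3 : s1 < c) (h4 : c < s2) : c ∈ cyl t a := by
  rw [lt_iff] at h3 h4
  obtain ⟨x, hx1, hx2, hx3⟩ := h3
  obtain ⟨z, hz1, hz2, hz3⟩ := h4
  have hxa : a < x := by
    by_contra hax
    rw [not_lt] at hax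
    rcases lt_trichotomy x z with h | h | h
    · have h5 := hz1 x h
      rw [hx3, h2 x hax, ← h1 x hax, hx2] at h5
      exact Bool.false_ne_true h5.symm
    · rw [← h] at hz2
      rw [hx3] at hz2
      exact Bool.false_ne_true hz2.symm
    · have h5 := hx1 z h
      have hza : z ≤ a := h.le.trans hax
      rw [hz2, h1 z hza, ← h2 z hza, hz3] at h5
      exact Bool.false_ne_true h5.symm
  intro b hb
  rw [← hx1 b (hb.trans_lt hxa)]
  exact h1 b hb

lemma refine_open [TopologicalSpace (Y S)] [OrderTopology (Y S)] {W : Set (Y S)}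
    (hW : IsOpen W) (t : L S) (a : Ω) (hne : (W ∩ O t a).Nonempty) :
    ∃ (t' : L S) (a' : Ω), a ≤ a' ∧ t' ∈ cyl t a ∧ O t' a' ⊆ W := by
  obtain ⟨y, hyW, s1, hs1, s2, hs2, h1, h2⟩ := hne
  obtain ⟨l, u, ⟨hly, hyu⟩, hsub⟩ := (mem_nhds_iff_exists_Ioo_subset' ⟨_, h1⟩ ⟨_, h2⟩).mp
    (hW.mem_nhds hyW)
  have h3 : max l (DedekindCut.principal s1) < y := max_lt hly h1
  rw [DedekindCut.lt_iff_exists] at h3
  obtain ⟨c, hc1, hc2⟩ := h3
  have h4 : DedekindCut.principal c < u := hc2.trans_lt hyu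
  rw [DedekindCut.lt_iff_exists] at h4
  obtain ⟨c', hc1', hc2'⟩ := h4
  rw [DedekindCut.principal_lt_principal, lt_iff] at hc1'
  obtain ⟨x, hx1, hx2, hx3⟩ := hc1'
  have h5 : s1 < c := DedekindCut.principal_lt_principal.mp ((le_max_right _ _).trans_lt hc1)
  have h6 : c < s2 := DedekindCut.principal_lt_principal.mp (hc2.trans_lt h2)
  obtain ⟨bc, hbc⟩ := c.2.2.1
  refine ⟨c, max a (max x bc), le_max_left _ _, cyl_convex hs1 hs2 h5 h6, ?_⟩
  rintro z ⟨s3, hs3, s4, hs4, h7, h8⟩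
  apply hsub
  constructor
  · have h9 : c ≤ s3 := le_of_bounded (b0 := bc) (fun x hx => (hbc x hx).le)
      ((le_max_right _ _).trans (le_max_right _ _)) hs3
    exact ((le_max_left _ _).trans_lt hc1).trans_le
      ((DedekindCut.principal_le_principal.mpr h9).trans h7.le)
  · have h9 : s4 < c' := by
      rw [lt_iff]
      have hxm : x ≤ max a (max x bc) := (le_max_left _ _).trans (le_max_right _ _)
      refine ⟨x, fun z hz => ?_, ?_, hx3⟩
      · rw [hs4 z (hz.le.trans hxm)]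
        exact hx1 z hz
      · rw [hs4 x hxm]
        exact hx2
    exact h8.trans ((DedekindCut.principal_lt_principal.mpr h9).trans_le hc2')

/-- The part of `t` up to `a` together with one further point `b`. -/
lemma exists_add (t : L S) {a b : Ω} (hb : Bdd Ω) (hab : a < b) (hbS : b ∈ S) :
    ∃ m : L S, m ∈ cyl t a ∧ m.1 b = true ∧ ∀ x, a < x → x ≠ b → m.1 x = false := by
  classical
  let c : Ω → Bool := fun x => if x ≤ a then t.1 x else decide (x = b)
  have hc1 : ∀ x, x ≤ a → c x = t.1 x := fun x hx => if_pos hx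
  have hc2 : ∀ x, a < x → (c x = true ↔ x = b) := by
    intro x hx
    have : c x = decide (x = b) := if_neg (not_le.mpr hx)
    rw [this, decide_eq_true_iff]
  have hcS : ∀ x, c x = true → x ∈ S := by
    intro x hx
    rcases le_or_gt x a with h | h
    · rw [hc1 x h] at hx; exact t.2.1 x hx
    · rw [(hc2 x h).mp hx]; exact hbS
  obtain ⟨u, hu⟩ := hb {b} (Set.countable_singleton _)
  have hbu : b < u := hu b rfl
  have hcB : ∀ x, c x = true → x < u := by
    intro x hx
    rcases le_or_gt x a with h | h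
    · exact h.trans_lt (hab.trans hbu)
    · rw [(hc2 x h).mp hx]; exact hbu
  have hcC : Clos {x | c x = true} := by
    intro x hx hlim
    rcases le_or_gt x a with h | h
    · show c x = true
      rw [hc1 x h]
      refine t.2.2.2 x hx fun y hy => ?_
      obtain ⟨z, hz, h1, h2⟩ := hlim y hy
      refine ⟨z, ?_, h1, h2⟩
      show t.1 z = true
      rw [← hc1 z (h2.le.trans h)]
      exact hz
    · exfalso
      obtain ⟨z, hz, h1, h2⟩ := hlim a h
      have hzb : z = b := (hc2 z h1).mp hz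
      obtain ⟨z', hz', h1', h2'⟩ := hlim z h2
      have hzb' : z' = b := (hc2 z' (h1.trans h1')).mp hz'
      rw [hzb, hzb'] at h1'
      exact lt_irrefl _ h1'
  refine ⟨⟨c, hcS, ⟨u, hcB⟩, hcC⟩, fun x hx => hc1 x hx, (hc2 b hab).mpr rfl, fun x hx hxb => ?_⟩
  rw [← Bool.not_eq_true]
  exact fun h => hxb ((hc2 x hx).mp h)

lemma O_nonempty (hb : Bdd Ω) (hSU : Unb S) (t : L S) (a : Ω) : (O t a).Nonempty := by
  obtain ⟨b1, hb1, hab1⟩ := hSU a
  obtain ⟨b2, hb2, hab2⟩ := hSU b1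
  obtain ⟨b3, hb3, hab3⟩ := hSU b2
  obtain ⟨m1, hm1, h1, h1'⟩ := exists_add t hb hab1 hb1
  obtain ⟨m2, hm2, h2, h2'⟩ := exists_add t hb (hab1.trans hab2) hb2
  obtain ⟨m3, hm3, h3, h3'⟩ := exists_add t hb ((hab1.trans hab2).trans hab3) hb3
  have key : ∀ {m m' : L S} {b b' : Ω}, m ∈ cyl t a → m' ∈ cyl t a → a < b → b < b' →
      m.1 b = true → (∀ x, a < x → x ≠ b → m.1 x = false) →
      (∀ x, a < x → x ≠ b' → m'.1 x = false) → m' < m := by
    intro m m' b b' hm hm' hab hbb h h' h''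
    rw [lt_iff]
    refine ⟨b, fun z hz => ?_, h'' b hab hbb.ne, h⟩
    rcases le_or_gt z a with hza | hza
    · rw [hm' z hza, hm z hza]
    · rw [h'' z hza (hz.trans hbb).ne, h' z hza hz.ne]
  exact ⟨DedekindCut.principal m2, m3, hm3, m1, hm1,
    DedekindCut.principal_lt_principal.mpr
      (key hm2 hm3 (hab1.trans hab2) hab3 h2 h2' h3'),
    DedekindCut.principal_lt_principal.mpr (key hm1 hm2 hab1 hab2 h1 h1' h2')⟩

/-- Distributivity: countably many dense families of cylinders have a common member. -/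
lemma distrib (hb : Bdd Ω) (hc : ∀ a : Ω, (Iic a).Countable)
    (hst : ∀ C : Set Ω, Clos C → Unb C → (C ∩ S).Nonempty)
    (E : ℕ → L S → Ω → Prop)
    (hE : ∀ n t a, ∃ t' a', a ≤ a' ∧ t' ∈ cyl t a ∧ E n t' a')
    (hup : ∀ n t a t' a', E n t a → a ≤ a' → t' ∈ cyl t a → E n t' a')
    (t0 : L S) (a0 : Ω) :
    ∃ t a, a0 ≤ a ∧ t ∈ cyl t0 a0 ∧ ∀ n, E n t a := by
  classical
  have hg : ∀ (n : ℕ) (p : L S × Ω) (β : Ω), ∃ q : L S × Ω, p.2 ≤ q.2 ∧ β < q.2 ∧
      q.1 ∈ cyl p.1 p.2 ∧ E n q.1 q.2 := by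
    intro n p β
    obtain ⟨u, hu⟩ := hb {β} (Set.countable_singleton _)
    obtain ⟨t', a', h1, h2, h3⟩ := hE n p.1 (max p.2 u)
    refine ⟨(t', a'), (le_max_left _ _).trans h1, (hu β rfl).trans_le ((le_max_right _ _).trans h1),
      fun x hx => h2 x (hx.trans (le_max_left _ _)), h3⟩
  choose g hg1 hg2 hg3 hg4 using hg
  let node : List Ω → L S × Ω := fun l => l.rec (t0, a0) (fun β l p => g l.length p β)
  have node_nil : node [] = (t0, a0) := rfl
  have node_cons : ∀ β l, node (β :: l) = g l.length (node l) β := fun _ _ => rfl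
  obtain ⟨hcl, hun⟩ := club_closure hb hc (fun l => (node l).2)
  obtain ⟨δ, hδ, hδS⟩ := hst _ hcl hun
  have hδ : ∀ l : List Ω, (∀ β ∈ l, β < δ) → (node l).2 < δ := hδ
  have ha0 : a0 < δ := hδ [] (by simp)
  have hne : (Iio δ).Nonempty := ⟨a0, ha0⟩
  have hcnt : (Iio δ).Countable := (hc δ).mono Iio_subset_Iic_self
  obtain ⟨e, he⟩ := hcnt.exists_eq_range hne
  have he' : ∀ k, e k < δ := fun k => by
    have : e k ∈ Iio δ := by rw [he]; exact ⟨k, rfl⟩
    exact this
  let ls : ℕ → List Ω := fun k => k.rec [] (fun k l => e k :: l)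
  have ls_zero : ls 0 = [] := rfl
  have ls_succ : ∀ k, ls (k + 1) = e k :: ls k := fun _ => rfl
  have ls_len : ∀ k, (ls k).length = k := by
    intro k
    induction k with
    | zero => rfl
    | succ k ih => rw [ls_succ, List.length_cons, ih]
  have ls_lt : ∀ k, ∀ β ∈ ls k, β < δ := by
    intro k
    induction k with
    | zero => intro β hβ; rw [ls_zero] at hβ; exact absurd hβ List.not_mem_nil
    | succ k ih =>
      intro β hβ
      rw [ls_succ] at hβ
      rcases List.mem_cons.mp hβ with rfl | hβ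
      · exact he' k
      · exact ih β hβ
  let p : ℕ → L S × Ω := fun k => node (ls k)
  have hp0 : p 0 = (t0, a0) := rfl
  have hps : ∀ k, p (k + 1) = g k (p k) (e k) := by
    intro k
    show node (ls (k + 1)) = g k (node (ls k)) (e k)
    rw [ls_succ, node_cons, ls_len]
  have hpδ : ∀ k, (p k).2 < δ := fun k => hδ (ls k) (ls_lt k)
  have hp1 : ∀ k, (p k).2 ≤ (p (k + 1)).2 := fun k => by rw [hps]; exact hg1 _ _ _
  have hp2 : ∀ k, e k < (p (k + 1)).2 := fun k => by rw [hps]; exact hg2 _ _ _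
  have hp3 : ∀ k, (p (k + 1)).1 ∈ cyl (p k).1 (p k).2 := fun k => by rw [hps]; exact hg3 _ _ _
  have hp4 : ∀ k, E k (p (k + 1)).1 (p (k + 1)).2 := fun k => by rw [hps]; exact hg4 _ _ _
  have hmono : Monotone fun k => (p k).2 := monotone_nat_of_le_succ hp1
  have hcoh : ∀ j k, j ≤ k → (p k).1 ∈ cyl (p j).1 (p j).2 := by
    intro j k hjk
    induction k, hjk using Nat.le_induction with
    | base => exact fun _ _ => rfl
    | succ k hjk ih => exact cyl_trans (hmono hjk) ih (hp3 k)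
  have hcoh2 : ∀ j k x, x ≤ (p j).2 → x ≤ (p k).2 → (p j).1.1 x = (p k).1.1 x := by
    intro j k x h1 h2
    rcases le_total j k with h | h
    · exact (hcoh j k h x h1).symm
    · exact hcoh k j h x h2
  let c : Ω → Bool := fun x => decide (x = δ ∨ ∃ k, x ≤ (p k).2 ∧ (p k).1.1 x = true)
  have hcdef : ∀ x, c x = true ↔ (x = δ ∨ ∃ k, x ≤ (p k).2 ∧ (p k).1.1 x = true) := by
    intro x
    exact decide_eq_true_iff
  have hck : ∀ k x, x ≤ (p k).2 → c x = (p k).1.1 x := by
    intro k x hx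
    rw [Bool.eq_iff_iff, hcdef]
    constructor
    · rintro (h | ⟨j, hj, hj'⟩)
      · rw [h] at hx
        exact absurd (hpδ k) (not_lt.mpr hx)
      · rw [← hcoh2 j k x hj hx]; exact hj'
    · intro h
      exact Or.inr ⟨k, hx, h⟩
  have hcS : ∀ x, c x = true → x ∈ S := by
    intro x hx
    rcases (hcdef x).mp hx with rfl | ⟨k, _, hk⟩
    · exact hδS
    · exact (p k).1.2.1 x hk
  have hcle : ∀ x, c x = true → x ≤ δ := by
    intro x hx
    rcases (hcdef x).mp hx with h | ⟨k, hk, _⟩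
    · exact h.le
    · exact (hk.trans_lt (hpδ k)).le
  obtain ⟨u, hu⟩ := hb {δ} (Set.countable_singleton _)
  have hδu : δ < u := hu δ rfl
  have hcC : Clos {x | c x = true} := by
    intro x hx hlim
    rcases lt_trichotomy x δ with h | h | h
    · have hxr : x ∈ Set.range e := by rw [← he]; exact h
      obtain ⟨k, rfl⟩ := hxr
      show c (e k) = true
      rw [hck (k + 1) (e k) (hp2 k).le]
      refine (p (k + 1)).1.2.2.2 (e k) hx fun y hy => ?_
      obtain ⟨z, hz, h1, h2⟩ := hlim y hy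
      refine ⟨z, ?_, h1, h2⟩
      show (p (k + 1)).1.1 z = true
      rw [← hck (k + 1) z (h2.le.trans (hp2 k).le)]
      exact hz
    · exact (hcdef x).mpr (Or.inl h)
    · exfalso
      obtain ⟨z, hz, h1, h2⟩ := hlim δ h
      exact absurd (hcle z hz) (not_le.mpr h1)
  let cc : L S := ⟨c, hcS, ⟨u, fun x hx => (hcle x hx).trans_lt hδu⟩, hcC⟩
  have hcc : ∀ k, cc ∈ cyl (p k).1 (p k).2 := fun k x hx => hck k x hx
  refine ⟨cc, δ, ha0.le, ?_, fun n => ?_⟩
  · have := hcc 0
    rw [hp0] at this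
    exact this
  · exact hup n _ _ cc δ (hp4 n) (hpδ (n + 1)).le (hcc (n + 1))

/-- The space fails the Blumberg property. -/
theorem not_blumberg [TopologicalSpace (Y S)] [OrderTopology (Y S)]
    (hb : Bdd Ω) (hc : ∀ a : Ω, (Iic a).Countable)
    (hst : ∀ C : Set Ω, Clos C → Unb C → (C ∩ S).Nonempty)
    (hco : ∀ C : Set Ω, Clos C → Unb C → ¬ C ⊆ S)
    (r : Ω → ℝ) (hr : Function.Injective r) : ¬ BlumbergProperty (Y S) := by
  intro hB
  have hSU : Unb S := by
    intro a
    have h1 : Clos (Ioi a) := by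
      intro x ⟨y, hy⟩ hlim
      obtain ⟨z, hz, _, h2⟩ := hlim y hy
      exact lt_trans hz h2
    have h2 : Unb (Ioi a) := by
      intro b
      obtain ⟨u, hu⟩ := hb {a, b} (by simp)
      exact ⟨u, hu a (by simp), hu b (by simp)⟩
    obtain ⟨c, hc1, hc2⟩ := hst _ h1 h2
    exact ⟨c, hc2, hc1⟩
  choose lev hlev using level hb hco
  obtain ⟨D, hD, hcont⟩ := hB (fun y => r (lev y))
  obtain ⟨q, hq⟩ := exists_surjective_nat ℚ
  have hC : ∀ n : ℕ, ∃ C : Set (Y S), IsOpen C ∧ ∀ y ∈ D, y ∈ C ↔ r (lev y) < (q n : ℝ) := by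
    intro n
    obtain ⟨C, hC1, hC2⟩ := isOpen_induced_iff.mp
      ((isOpen_Iio (a := (q n : ℝ))).preimage hcont)
    refine ⟨C, hC1, fun y hy => ?_⟩
    have h3 : (⟨y, hy⟩ : D) ∈ Subtype.val ⁻¹' C ↔
        (⟨y, hy⟩ : D) ∈ (fun x : D => r (lev x)) ⁻¹' Iio (q n : ℝ) := by rw [hC2]
    exact h3
  choose C hC1 hC2 using hC
  obtain ⟨a0, -⟩ := hb ∅ Set.countable_empty
  let t0 : L S := ⟨fun _ => false, fun a h => absurd h Bool.false_ne_true,
    ⟨a0, fun a h => absurd h Bool.false_ne_true⟩, by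
      intro x hx hlim
      obtain ⟨y, hy⟩ := hx
      obtain ⟨z, hz, _, _⟩ := hlim y hy
      exact absurd hz Bool.false_ne_true⟩
  obtain ⟨t, a, -, -, hE⟩ := distrib hb hc hst
    (fun n t a => O t a ⊆ C n ∨ O t a ∩ C n = ∅)
    (by
      intro n t a
      by_cases hne : (C n ∩ O t a).Nonempty
      · obtain ⟨t', a', h1, h2, h3⟩ := refine_open (hC1 n) t a hne
        exact ⟨t', a', h1, h2, Or.inl h3⟩
      · refine ⟨t, a, le_rfl, fun _ _ => rfl, Or.inr ?_⟩
        rw [Set.inter_comm]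
        exact Set.not_nonempty_iff_eq_empty.mp hne)
    (by
      rintro n t a t' a' h h1 h2
      rcases h with h | h
      · exact Or.inl ((O_mono h1 h2).trans h)
      · refine Or.inr (Set.subset_eq_empty ?_ h)
        exact Set.inter_subset_inter_left _ (O_mono h1 h2))
    t0 a0
  have hOopen : ∀ (t : L S) (a : Ω), IsOpen (O t a) := by
    intro t a
    have h1 : O t a = ⋃ s ∈ cyl t a, ⋃ s' ∈ cyl t a,
        Ioo (DedekindCut.principal s) (DedekindCut.principal s') := by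
      ext y
      simp only [O, Set.mem_iUnion, Set.mem_Ioo, exists_prop]
      rfl
    rw [h1]
    exact isOpen_biUnion fun _ _ => isOpen_biUnion fun _ _ => isOpen_Ioo
  have hconst : ∀ y ∈ D, ∀ y' ∈ D, y ∈ O t a → y' ∈ O t a → lev y = lev y' := by
    intro y hy y' hy' h h'
    apply hr
    by_contra hne
    have key : ∀ n, (r (lev y) < (q n : ℝ) ↔ r (lev y') < (q n : ℝ)) := by
      intro n
      rw [← hC2 n y hy, ← hC2 n y' hy']
      rcases hE n with h1 | h1
      · exact ⟨fun _ => h1 h', fun _ => h1 h⟩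
      · constructor
        · intro h2
          have : y ∈ O t a ∩ C n := ⟨h, h2⟩
          rw [h1] at this
          exact absurd this (Set.notMem_empty _)
        · intro h2
          have : y' ∈ O t a ∩ C n := ⟨h', h2⟩
          rw [h1] at this
          exact absurd this (Set.notMem_empty _)
    rcases lt_or_gt_of_ne hne with h1 | h1
    · obtain ⟨x, hx1, hx2⟩ := exists_rat_btwn h1
      obtain ⟨n, rfl⟩ := hq x
      exact absurd ((key n).mp hx1) (not_lt.mpr hx2.le)
    · obtain ⟨x, hx1, hx2⟩ := exists_rat_btwn h1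
      obtain ⟨n, rfl⟩ := hq x
      exact absurd ((key n).mpr hx1) (not_lt.mpr hx2.le)
  obtain ⟨y0, hy0, hy0D⟩ := hD.inter_open_nonempty _ (hOopen t a) (O_nonempty hb hSU t a)
  obtain ⟨y1, hy1, hy1D⟩ := hD.inter_open_nonempty _ (hOopen t (max a (lev y0)))
    (O_nonempty hb hSU t (max a (lev y0)))
  have h1 : y1 ∈ O t a := O_mono (le_max_left _ _) (fun _ _ => rfl) hy1
  have h2 : lev y1 = lev y0 := hconst y1 hy1D y0 hy0D h1 hy0
  exact hlev y1 (max a (lev y0)) (by rw [h2]; exact le_max_right _ _) t hy1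

end Space

/-- There is a compact linearly ordered space without the Blumberg property. -/
theorem result : ∃ (X : Type) (_ : LinearOrder X) (_ : TopologicalSpace X),
    OrderTopology X ∧ CompactSpace X ∧ ¬ BlumbergProperty X := by
  let Ω : Type := (Cardinal.aleph 1).ord.ToType
  have hmk : Cardinal.mk Ω = Cardinal.aleph 1 := Cardinal.mk_ord_toType _
  have hIio : ∀ a : Ω, (Iio a).Countable := by
    intro a
    rw [Cardinal.countable_iff_lt_aleph_one]
    exact Cardinal.mk_Iio_toType_ord_lt a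
  have hc : ∀ a : Ω, (Iic a).Countable := by
    intro a
    rw [← Iio_insert]
    exact (hIio a).insert a
  have hb : Bdd Ω := by
    intro A hA
    by_contra hcon
    push Not at hcon
    have h1 : (Set.univ : Set Ω) ⊆ ⋃ a ∈ A, Iic a := by
      intro b _
      obtain ⟨a, ha, hab⟩ := hcon b
      exact Set.mem_biUnion ha hab
    have h2 : (Set.univ : Set Ω).Countable := (hA.biUnion fun a _ => hc a).mono h1
    rw [Cardinal.countable_iff_lt_aleph_one, Cardinal.mk_univ, hmk] at h2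
    exact lt_irrefl _ h2
  have hle : Cardinal.mk Ω ≤ Cardinal.mk ℝ := by
    rw [hmk, Cardinal.mk_real]
    exact Cardinal.aleph_one_le_continuum
  obtain ⟨r⟩ := Cardinal.le_def _ _ |>.mp hle
  have hle2 : Cardinal.mk Ω ≤ Cardinal.mk (ℕ → Bool) := by
    rw [hmk]
    refine Cardinal.aleph_one_le_continuum.trans (le_of_eq ?_)
    simp
  obtain ⟨r2⟩ := Cardinal.le_def _ _ |>.mp hle2
  obtain ⟨S, hS1, hS2⟩ := exists_bistat hb r2 r2.injective
  let _ : TopologicalSpace (Y S) := Preorder.topology (Y S)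
  have _ : OrderTopology (Y S) := ⟨rfl⟩
  exact ⟨Y S, inferInstance, inferInstance, inferInstance, inferInstance,
    not_blumberg hb hc hS1 hS2 r r.injective⟩

end Pool.Agent.Results.MP_184855_gt.CompactLOTS
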